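import Mathlib
import Pool.Agent.Work.MP_841263_tu.Final

/-!
# Blocks of the category of semistable objects of one phase (R3)
-/

open CategoryTheory CategoryTheory.Limits CategoryTheory.Pretriangulated
open scoped ZeroObject

set_option backward.isDefEq.respectTransparency false
set_option backward.defeqAttrib.useBackward true
set_option linter.unusedSectionVars false

namespace Pool.Blk

open Pool.Stab Pool.Tube

universe v u

variable {C : Type u} [Category.{v} C] [Preadditive C] [HasZeroObject C] [HasShift C ℤ]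
  [∀ n : ℤ, (shiftFunctor C n).Additive] [Pretriangulated C] [IsTriangulated C] [Linear ℂ C]
  [∀ n : ℤ, (shiftFunctor C n).Linear ℂ]

/-- `P(φ)` is an abelian subcategory of finite length with the positive function `re`. -/
theorem finCat_P (h : EllipticSetting C) (σ : StabCond C) (φ : ℝ) :
    FinCat (σ.sl.P φ) (σ.re φ) := by
  have hfinK : Module.Finite ℤ (K0 C) := h.finite
  have hfreeK : Module.Free ℤ (K0 C) := h.free
  have ht : φ - 1 + 1 = φ := by ring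
  have key : ∀ {X : C}, σ.sl.P φ X → σ.sl.Heart (φ - 1) X := fun hX =>
    Slicing.heart_of_P hX (by linarith) (by linarith)
  have hre : ∀ X, σ.sl.P φ X → σ.re φ (cls X) = ‖σ.Z (cls X)‖ := by
    intro X hX
    by_cases h0 : IsZero X
    · rw [cls_of_isZero h0, map_zero, map_zero, norm_zero]
    · rw [(σ.polar φ hX h0).2.1]
      simp
  have hab : AbSub (σ.sl.P φ) :=
    { iso_mem := fun e hX => σ.sl.iso_mem φ e hX
      zero_mem := fun h0 => σ.sl.iso_mem φ h0.isoZero.symm (σ.sl.zero_mem φ)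
      ext_mem := by
        intro X Y Z f g w hT hX hZ
        have h1 : σ.sl.Heart (φ - 1) Y := Slicing.Heart.ext hT (key hX) (key hZ)
        have h2 : σ.im (φ - 1) (cls Y) = 0 := by
          rw [cls_mk hT, map_add]
          have a1 := σ.im_of_P (t := φ - 1) (X := X) (by rw [ht]; exact hX)
          have a2 := σ.im_of_P (t := φ - 1) (X := Z) (by rw [ht]; exact hZ)
          linarith
        have h3 := σ.P_of_im h1 h2
        rwa [ht] at h3
      hom_neg := fun hX hY n hn f => Slicing.Heart.hom_neg (key hX) (key hY) hn f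
      kiq := by
        intro X Y hX hY f
        obtain ⟨K, I, Q, k, p, d, i, q, e, h1, h2, hK, hI, hQ, hf⟩ :=
          Slicing.exists_KIQ (key hX) (key hY) f
        have h3 := σ.P_sub_quot h1 hK hI (by rw [ht]; exact hX)
        have h4 := σ.P_sub_quot h2 hI hQ (by rw [ht]; exact hY)
        rw [ht] at h3 h4
        exact ⟨K, I, Q, k, p, i, q, ⟨h3.1, hX, h3.2, d, h1⟩, ⟨h3.2, hY, h4.2, e, h2⟩, hf⟩ }
  refine { toAbSub := hab, pos := ?_, fin := ?_ }
  · intro X hX h0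
    rw [hre X hX]
    exact (σ.polar φ hX h0).1
  · intro X hX
    refine (σ.finite_classes ‖σ.Z (cls X)‖).subset ?_
    rintro x ⟨F, Q, f, g, hs, rfl⟩
    refine ⟨⟨φ, F, hs.1, rfl⟩, ?_⟩
    have h1 := hre F hs.1
    have h2 := hre Q hs.2.2.1
    have h3 := hre X hX
    have h4 := hs.cls_eq
    rw [← h1, ← h3, h4, map_add, h2]
    have : 0 ≤ ‖σ.Z (cls Q)‖ := norm_nonneg _
    linarith

/-- `G` is a block of `P(φ)`: a connected component of the class of the stable objects. -/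
structure IsBlock (σ : StabCond C) (φ : ℝ) (G : C → Prop) : Prop where
  ne : ∃ S, G S
  stable : ∀ S, G S → σ.Stable φ S
  iso : ∀ S S', Nonempty (S ≅ S') → G S → G S'
  orth : ∀ S T, G S → σ.Stable φ T → ¬ G T → Orth S T ∧ Orth T S
  conn : ∀ G' : C → Prop, (∀ S, G' S → G S) → (∀ S S', Nonempty (S ≅ S') → G' S → G' S') →
    (∃ S, G' S) → (∀ S T, G' S → G T → ¬ G' T → ∀ f : S ⟶ T⟦(1 : ℤ)⟧, f = 0) →
    ∀ S, G S → G' S

/-- The step relation on stable objects. -/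
def Step (σ : StabCond C) (φ : ℝ) (S T : C) : Prop :=
  σ.Stable φ T ∧ (Nonempty (S ≅ T) ∨ ∃ f : S ⟶ T⟦(1 : ℤ)⟧, f ≠ 0)

lemma stable_iso (h : EllipticSetting C) {σ : StabCond C} {φ : ℝ} {S T : C}
    (hS : σ.Stable φ S) (e : S ≅ T) : σ.Stable φ T :=
  SimpleIn.iso (finCat_P h σ φ).toAbSub hS e

lemma ext_symm (h : EllipticSetting C) {X Y : C} (hX : ∃ f : X ⟶ Y⟦(1 : ℤ)⟧, f ≠ 0) :
    ∃ f : Y ⟶ X⟦(1 : ℤ)⟧, f ≠ 0 := by
  by_contra hcon
  push Not at hcon
  obtain ⟨f, hf⟩ := hX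
  have h1 := finrank_of_forall_zero hcon
  rw [← finrank_ext_symm h.k3] at h1
  exact hf (forall_zero_of_finrank h.k3 h1 f)

/-- Non-isomorphic stable objects without extensions are orthogonal. -/
lemma orth_of_stable (h : EllipticSetting C) {σ : StabCond C} {φ : ℝ} {S T : C}
    (hS : σ.Stable φ S) (hT : σ.Stable φ T) (hne : ¬ Nonempty (S ≅ T))
    (h1 : ∀ f : S ⟶ T⟦(1 : ℤ)⟧, f = 0) : Orth S T ∧ Orth T S := by
  have hA := (finCat_P h σ φ).toAbSub
  obtain ⟨-, h2, h3⟩ := hA.simple_form_le h.k3 hS hT hne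
  have h4 : ∀ f : T ⟶ S⟦(1 : ℤ)⟧, f = 0 := by
    intro f
    by_contra hf
    obtain ⟨g, hg⟩ := ext_symm h ⟨f, hf⟩
    exact hg (h1 g)
  exact ⟨fun n f => hA.orth h.k3 hS.1 hT.1 h2 h1 h3 n f,
    fun n f => hA.orth h.k3 hT.1 hS.1 h3 h4 h2 n f⟩

/-- Every stable object is in a block. -/
theorem exists_block (h : EllipticSetting C) (σ : StabCond C) (φ : ℝ) {S : C}
    (hS : σ.Stable φ S) : ∃ G, IsBlock σ φ G ∧ G S := by
  set G : C → Prop := fun T => Relation.ReflTransGen (Step σ φ) S T with hG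
  have hst : ∀ T, G T → σ.Stable φ T := by
    intro T hT
    rcases Relation.ReflTransGen.cases_tail hT with h1 | ⟨y, -, hy⟩
    · rw [h1]; exact hS
    · exact hy.1
  have hsymm : ∀ X Y, σ.Stable φ X → Relation.ReflTransGen (Step σ φ) X Y →
      Relation.ReflTransGen (Step σ φ) Y X := by
    intro X Y hX hXY
    have hst' : ∀ Y, Relation.ReflTransGen (Step σ φ) X Y → σ.Stable φ Y := by
      intro T hT
      rcases Relation.ReflTransGen.cases_tail hT with h1 | ⟨y, -, hy⟩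
      · rw [h1]; exact hX
      · exact hy.1
    induction hXY with
    | refl => exact Relation.ReflTransGen.refl
    | @tail b c hb hbc ih =>
      refine Relation.ReflTransGen.head ⟨hst' b hb, ?_⟩ ih
      rcases hbc.2 with ⟨⟨e⟩⟩ | h2
      · exact Or.inl ⟨e.symm⟩
      · exact Or.inr (ext_symm h h2)
  refine ⟨G, ⟨⟨S, Relation.ReflTransGen.refl⟩, hst, ?_, ?_, ?_⟩, Relation.ReflTransGen.refl⟩
  · rintro X Y ⟨e⟩ hX
    exact Relation.ReflTransGen.tail hX ⟨stable_iso h (hst X hX) e, Or.inl ⟨e⟩⟩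
  · intro X T hX hT hTG
    refine orth_of_stable h (hst X hX) hT ?_ ?_
    · rintro ⟨e⟩
      exact hTG (Relation.ReflTransGen.tail hX ⟨hT, Or.inl ⟨e⟩⟩)
    · intro f
      by_contra hf
      exact hTG (Relation.ReflTransGen.tail hX ⟨hT, Or.inr ⟨f, hf⟩⟩)
  · intro G' hsub hiso ⟨X, hX⟩ hext Y hY
    have h1 : Relation.ReflTransGen (Step σ φ) X Y :=
      Relation.ReflTransGen.trans (hsymm _ _ hS (hsub X hX)) hY
    have hXG := hsub X hX
    clear hY
    induction h1 with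
    | refl => exact hX
    | @tail b c hb hbc ih =>
      by_contra hc
      have hcG : G c := Relation.ReflTransGen.trans hXG (Relation.ReflTransGen.tail hb hbc)
      rcases hbc.2 with ⟨⟨e⟩⟩ | ⟨f, hf⟩
      · exact hc (hiso b c ⟨e⟩ ih)
      · exact hf (hext b c ih hcG hc f)

section Block

variable {σ : StabCond C} {φ : ℝ} {G : C → Prop}

lemma not_orth_self' {E : C} (hE : ¬ IsZero E) : ¬ Orth E E := not_orth_self hE

/-- Two blocks with a common object are equal. -/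
theorem block_eq (h : EllipticSetting C) {G' : C → Prop} (hG : IsBlock σ φ G)
    (hG' : IsBlock σ φ G') {S : C} (hS : G S) (hS' : G' S) (T : C) : G T ↔ G' T := by
  have key : ∀ (G G' : C → Prop), IsBlock σ φ G → IsBlock σ φ G' → G S → G' S →
      ∀ T, G T → G' T := by
    intro G G' hG hG' hS hS' T hT
    have h1 := hG.conn (fun X => G X ∧ G' X) (fun X hX => hX.1)
      (fun X Y e hX => ⟨hG.iso X Y e hX.1, hG'.iso X Y e hX.2⟩) ⟨S, hS, hS'⟩ ?_ T hT
    · exact h1.2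
    · intro X Y hX hY hnY f
      have hYG' : ¬ G' Y := fun hc => hnY ⟨hY, hc⟩
      exact (hG'.orth X Y hX.2 (hG.stable Y hY) hYG').1 1 f
  exact ⟨key G G' hG hG' hS hS' T, key G' G hG' hG hS' hS T⟩

/-- The objects of a block and of its complement are orthogonal. -/
theorem IsBlock.compl_orth (hG : IsBlock σ φ G) {X Y : C} (hX : Gen G X)
    (hY : Gen (fun T => σ.Stable φ T ∧ ¬ G T) Y) : Orth X Y ∧ Orth Y X := by
  have h1 : ∀ (G₁ G₂ : C → Prop), (∀ S T, G₁ S → G₂ T → Orth S T) → ∀ X Y, Gen G₁ X →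
      Gen G₂ Y → Orth X Y := by
    intro G₁ G₂ h12 X Y hX hY n f
    refine Gen.hom_zero (G := G₁) (G' := fun Z => ∃ T, G₂ T ∧ Nonempty (Z ≅ T⟦n⟧)) ?_ hX
      (hY.shift' n (fun T hT => ⟨T, hT, ⟨Iso.refl _⟩⟩)) f
    rintro S Z hS ⟨T, hT, ⟨e⟩⟩ f
    have := h12 S T hS hT n (f ≫ e.hom)
    rw [← cancel_mono e.hom, this, zero_comp]
  exact ⟨h1 _ _ (fun S T hS hT => (hG.orth S T hS hT.1 hT.2).1) X Y hX hY,
    h1 _ _ (fun S T hS hT => (hG.orth T S hT hS.1 hS.2).2) Y X hY hX⟩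

/-- Retracts of objects of an abelian subcategory. -/
lemma retract_mem {A : C → Prop} (hA : AbSub A) {X Y : C} (hX : A X) (a : Y ⟶ X) (b : X ⟶ Y)
    (hab : a ≫ b = 𝟙 Y) : A Y := by
  obtain ⟨K, I, Q, k, p, i, q, h1, h2, hpi⟩ := hA.kiq hX hX (b ≫ a)
  have hI : A I := h1.2.2.1
  have hff : (b ≫ a) ≫ (b ≫ a) = b ≫ a := by
    rw [Category.assoc, ← Category.assoc a b a, hab, Category.id_comp]
  have e1 : (i ≫ b ≫ a ≫ p - 𝟙 I) ≫ i = 0 := by
    refine h1.epi hA hX _ ?_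
    have h3 : p ≫ (i ≫ b ≫ a ≫ p - 𝟙 I) ≫ i = (p ≫ i) ≫ (b ≫ a) ≫ (p ≫ i) - p ≫ i := by
      simp only [Preadditive.sub_comp, Preadditive.comp_sub, Category.assoc, Category.id_comp]
    rw [h3, hpi, hff, hff, sub_self]
  have e2 : i ≫ b ≫ a ≫ p - 𝟙 I = 0 := h2.mono hA hI _ e1
  have e3 : (i ≫ b) ≫ (a ≫ p) = 𝟙 I := by
    rw [Category.assoc]; exact sub_eq_zero.1 e2
  have e4 : (a ≫ p) ≫ (i ≫ b) = 𝟙 Y := by
    have h4 : (a ≫ p) ≫ (i ≫ b) = a ≫ (p ≫ i) ≫ b := by simp only [Category.assoc]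
    rw [h4, hpi]
    have h5 : a ≫ (b ≫ a) ≫ b = (a ≫ b) ≫ (a ≫ b) := by simp only [Category.assoc]
    rw [h5, hab, Category.id_comp]
  exact hA.iso_mem (Iso.mk (i ≫ b) (a ≫ p) e3 e4) hI

/-- A semistable object without morphisms to the stable objects of a class `R`, where the other
stable objects are orthogonal to `R`, is generated by the other stable objects. -/
lemma gen_of_hom_zero (h : EllipticSetting C) {R : C → Prop} (hR : ∀ S, R S → σ.Stable φ S)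
    (horth : ∀ S T, R S → σ.Stable φ T → ¬ R T → Orth S T ∧ Orth T S) {X : C}
    (hX : σ.sl.P φ X) (h0 : ∀ S, R S → ∀ f : X ⟶ S, f = 0) :
    Gen (fun T => σ.Stable φ T ∧ ¬ R T) X := by
  have hfc := finCat_P h σ φ
  refine hfc.induction (P := fun X => (∀ S, R S → ∀ f : X ⟶ S, f = 0) →
    Gen (fun T => σ.Stable φ T ∧ ¬ R T) X) ?_ X hX h0
  intro E hE h1 h2 h0
  by_cases hz : IsZero E
  · exact Gen.zero hz
  obtain ⟨K, S, k, s, hks, hS⟩ := hfc.exists_simple_quot E hE hz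
  have hs0 : s ≠ 0 := by
    intro h3
    exact hS.2.1 (isZero_of_SES_right hfc.toAbSub hks h3)
  have hSR : ¬ R S := fun hc => hs0 (h0 S hc s)
  have hK : Gen (fun T => σ.Stable φ T ∧ ¬ R T) K := by
    refine h1 K S k s hks hS.2.1 ?_
    intro T hT f
    obtain ⟨-, -, -, d, hTr⟩ := hks
    have h3 : ∀ g : S ⟶ T⟦(1 : ℤ)⟧, g = 0 := (horth T S hT hS hSR).2 1
    -- extend f to E
    have h4 : d ≫ f⟦(1 : ℤ)⟧' = 0 := h3 _
    have hrot := rot_mk (rot_mk hTr)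
    obtain ⟨g, hg⟩ := Triangle.yoneda_exact₂ _ hrot (f⟦(1 : ℤ)⟧') h4
    obtain ⟨g', hg'⟩ : ∃ g' : E ⟶ T, g'⟦(1 : ℤ)⟧' = g :=
      ⟨(shiftFunctor C (1 : ℤ)).preimage g, Functor.map_preimage _ _⟩
    have h5 : g' = 0 := h0 T hT g'
    apply (shiftFunctor C (1 : ℤ)).map_injective
    rw [hg, ← hg', h5]
    simp
  obtain ⟨-, -, -, d, hTr⟩ := hks
  exact Gen.ext hTr hK (Gen.of ⟨hS, hSR⟩)

/-- Every semistable object is the direct sum of its part in a block and of the rest. -/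
theorem IsBlock.split (h : EllipticSetting C) (hG : IsBlock σ φ G) {X : C}
    (hX : σ.sl.P φ X) : ∃ X₁ X₂ : C, Gen G X₁ ∧ Gen (fun T => σ.Stable φ T ∧ ¬ G T) X₂ ∧
      Nonempty (X ≅ X₁ ⊞ X₂) := by
  have hfc := finCat_P h σ φ
  have hgen := hfc.gen_simple X hX
  set G1 : C → Prop := fun Z => ∃ (S : C) (m : ℤ), G S ∧ Nonempty (Z ≅ S⟦m⟧) with hG1
  set G2 : C → Prop := fun Z => ∃ (S : C) (m : ℤ), (σ.Stable φ S ∧ ¬ G S) ∧
    Nonempty (Z ≅ S⟦m⟧) with hG2
  have hsh : ∀ (Q : C → Prop) (Z : C) (n : ℤ), (∃ (S : C) (m : ℤ), Q S ∧ Nonempty (Z ≅ S⟦m⟧)) →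
      ∃ (S : C) (m : ℤ), Q S ∧ Nonempty (Z⟦n⟧ ≅ S⟦m⟧) := by
    rintro Q Z n ⟨S, m, hS, ⟨e⟩⟩
    exact ⟨S, m + n, hS, ⟨(shiftFunctor C n).mapIso e ≪≫
      ((shiftFunctorAdd C m n).app S).symm⟩⟩
  have h12 : ∀ X Y, G1 X → G2 Y → ∀ f : X ⟶ Y, f = 0 := by
    rintro X Y ⟨S, m, hS, ⟨e⟩⟩ ⟨T, n, hT, ⟨e'⟩⟩ f
    have := orth_shift (hG.orth S T hS hT.1 hT.2).1 m n (e.inv ≫ f ≫ e'.hom)
    rw [← cancel_epi e.inv, ← cancel_mono e'.hom, Category.assoc, this]
    simp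
  have h21 : ∀ X Y, G1 X → G2 Y → ∀ f : Y ⟶ X, f = 0 := by
    rintro X Y ⟨S, m, hS, ⟨e⟩⟩ ⟨T, n, hT, ⟨e'⟩⟩ f
    have := orth_shift (hG.orth S T hS hT.1 hT.2).2 n m (e'.inv ≫ f ≫ e.hom)
    rw [← cancel_epi e'.inv, ← cancel_mono e.hom, Category.assoc, this]
    simp
  obtain ⟨X₁, X₂, hX₁, hX₂, ⟨e⟩⟩ := exists_biprod_of_gen (G := G1) (G' := G2) (hsh _) (hsh _)
    h12 h21 (E := X) (hgen.mono (fun S hS => by
      by_cases hGS : G S
      · exact Or.inl ⟨S, 0, hGS, ⟨((shiftFunctorZero C ℤ).app S).symm⟩⟩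
      · exact Or.inr ⟨S, 0, ⟨hS, hGS⟩, ⟨((shiftFunctorZero C ℤ).app S).symm⟩⟩))
  have hP1 : σ.sl.P φ X₁ := retract_mem hfc.toAbSub hX (biprod.inl ≫ e.inv)
    (e.hom ≫ biprod.fst) (by simp)
  have hP2 : σ.sl.P φ X₂ := retract_mem hfc.toAbSub hX (biprod.inr ≫ e.inv)
    (e.hom ≫ biprod.snd) (by simp)
  refine ⟨X₁, X₂, ?_, ?_, ⟨e⟩⟩
  · have h3 := gen_of_hom_zero h (σ := σ) (φ := φ) (R := fun T => σ.Stable φ T ∧ ¬ G T)
      (fun S hS => hS.1) (fun S T hS hT hnT => by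
        have hGT : G T := by
          by_contra hc
          exact hnT ⟨hT, hc⟩
        exact (hG.orth T S hGT hS.1 hS.2).symm) hP1 (fun S hS f =>
        Gen.hom_zero h12 hX₁ (Gen.of ⟨S, 0, hS, ⟨((shiftFunctorZero C ℤ).app S).symm⟩⟩) f)
    refine h3.mono ?_
    rintro T ⟨hT, hnT⟩
    by_contra hc
    exact hnT ⟨hT, hc⟩
  · exact gen_of_hom_zero h (fun S hS => hG.stable S hS) hG.orth hP2 (fun S hS f =>
      Gen.hom_zero (fun X Y hX hY f => h21 Y X hY hX f) hX₂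
        (Gen.of ⟨S, 0, hS, ⟨((shiftFunctorZero C ℤ).app S).symm⟩⟩) f)

lemma IsBlock.gen_P (h : EllipticSetting C) (hG : IsBlock σ φ G) {X : C} (hX : Gen G X) :
    σ.sl.P φ X :=
  (finCat_P h σ φ).toAbSub.gen_mem (fun S hS => hG.stable S hS) hX

/-- The largest quotient in a block of an object with phases at least `φ`. -/
theorem IsBlock.quot (h : EllipticSetting C) (hG : IsBlock σ φ G) {H : C}
    (hH : σ.sl.In (Set.Ici φ) H) : ∃ (K M : C) (k : K ⟶ H) (m : H ⟶ M) (w : M ⟶ K⟦(1 : ℤ)⟧),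
      Triangle.mk k m w ∈ distTriang C ∧ Gen G M ∧ σ.sl.In (Set.Ici φ) K ∧
      (∀ T, Gen G T → ∀ f : K ⟶ T, f = 0) ∧
      (σ.sl.In (Set.Ico φ (φ + 1)) H → σ.sl.In (Set.Ico φ (φ + 1)) K) := by
  have hfc := finCat_P h σ φ
  obtain ⟨H', H'', a, b, c, hT, h1, h2⟩ := σ.sl.exists_trunc H (isUpperSet_Ioi φ)
  have h3 : σ.sl.In (Set.Ici φ) H'' := by
    refine Slicing.In.ext_upper (isUpperSet_Ici φ) (rot_mk hT) hH ?_
    refine (h1.shift_one).mono ?_
    rintro _ ⟨x, hx, rfl⟩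
    have hx' : φ < x := hx
    show φ ≤ x + 1
    linarith
  have h4 : σ.sl.P φ H'' := by
    refine Slicing.In.P_of_singleton
      ((Slicing.In.inter (isUpperSet_Ici φ) (isUpperSet_Ioi φ) h3 h2).mono ?_)
    rintro x ⟨hx1, hx2⟩
    have a1 : φ ≤ x := hx1
    have a2 : ¬ φ < x := hx2
    show x = φ
    linarith [not_lt.1 a2]
  obtain ⟨M, N, hM, hN, ⟨e⟩⟩ := hG.split h h4
  have ht2 := tri_mid_iso (binaryBiproductTriangle_distinguished N M)
    ((biprod.braiding N M) ≪≫ e.symm)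
  set u : H'' ⟶ M := ((biprod.braiding N M) ≪≫ e.symm).inv ≫
    (binaryBiproductTriangle N M).mor₂ with hu
  obtain ⟨K, k, w, hK⟩ := distinguished_cocone_triangle₁ (b ≫ u)
  obtain ⟨m, n, r, hmn, -⟩ := exists_octa_cocone hT ht2 hK
  have hNP : σ.sl.P φ N := hfc.toAbSub.gen_mem (fun S hS => hS.1) hN
  have hMP : σ.sl.P φ M := hG.gen_P h hM
  have hKI : σ.sl.In (Set.Ici φ) K := by
    refine Slicing.In.ext_upper (isUpperSet_Ici φ) hmn (h1.mono ?_) (Slicing.in_of_P hNP ?_)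
    · intro x hx
      have hx' : φ < x := hx
      show φ ≤ x
      exact hx'.le
    · show φ ≤ φ
      exact le_rfl
  refine ⟨K, M, k, b ≫ u, w, hK, hM, hKI, ?_, ?_⟩
  · intro T hT' f
    refine hom_zero_of_ext₁ hmn (fun g => ?_) (fun g => ?_) f
    · refine h1.hom_zero (Slicing.in_of_P (I := {φ}) (hG.gen_P h hT') rfl) ?_ g
      intro x hx y hy
      have hx' : φ < x := hx
      have hy' : y = φ := hy
      rw [hy']
      exact hx'
    · have h5 := (hG.compl_orth hT' hN).2 0 (g ≫ ((shiftFunctorZero C ℤ).app T).inv)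
      rw [← cancel_mono ((shiftFunctorZero C ℤ).app T).inv, h5, zero_comp]
  · intro hH'
    have h5 : σ.sl.In (Set.Ici (φ + 1))ᶜ K := by
      obtain ⟨a', c', hinv⟩ := exists_invrot hK
      refine Slicing.In.ext_lower (isUpperSet_Ici (φ + 1)) hinv ?_ (hH'.mono ?_)
      · refine ((Slicing.in_of_P (I := {φ}) hMP rfl).shift_neg_one).mono ?_
        rintro _ ⟨x, hx, rfl⟩ hcon
        have hx' : x = φ := hx
        have hc' : φ + 1 ≤ x - 1 := hcon
        linarith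
      · intro x hx hcon
        have hc' : φ + 1 ≤ x := hcon
        have hx' : x < φ + 1 := hx.2
        linarith
    refine (Slicing.In.inter (isUpperSet_Ici φ) (isUpperSet_Ici (φ + 1)) hKI h5).mono ?_
    rintro x ⟨hx1, hx2⟩
    exact ⟨hx1, not_le.1 hx2⟩

/-- A block consists of rigid objects of norm two, or of the objects isomorphic to one object
with class in the radical. -/
theorem IsBlock.dich (h : EllipticSetting C) (hG : IsBlock σ φ G) :
    (∀ S, G S → Rigid S ∧ eulerForm h.k3 (cls S) (cls S) = 2) ∨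
      ∃ S₀, G S₀ ∧ cls S₀ ∈ radical (eulerForm h.k3) ∧ ∀ S, G S → Nonempty (S ≅ S₀) := by
  have hfc := finCat_P h σ φ
  by_cases hr : ∃ S₀, G S₀ ∧ cls S₀ ∈ radical (eulerForm h.k3)
  · right
    obtain ⟨S₀, hS₀, hrad⟩ := hr
    refine ⟨S₀, hS₀, hrad, ?_⟩
    refine hG.conn (fun S => G S ∧ Nonempty (S ≅ S₀)) (fun S hS => hS.1) ?_
      ⟨S₀, hS₀, ⟨Iso.refl _⟩⟩ ?_ |> fun h S hS => (h S hS).2
    · rintro S S' ⟨e⟩ ⟨hS, ⟨e'⟩⟩
      exact ⟨hG.iso S S' ⟨e⟩ hS, ⟨e.symm ≪≫ e'⟩⟩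
    · rintro S T ⟨hS, ⟨e⟩⟩ hT hnT
      have hne : ¬ Nonempty (S ≅ T) := by
        rintro ⟨e'⟩
        exact hnT ⟨hT, ⟨e'.symm ≪≫ e⟩⟩
      obtain ⟨h1, -, -⟩ := hfc.toAbSub.simple_form_le h.k3 (hG.stable S hS) (hG.stable T hT) hne
      have h2 : eulerForm h.k3 (cls S) (cls T) = 0 := by
        rw [cls_iso e]
        exact (mem_radical.1 hrad) _
      rw [h2] at h1
      exact forall_zero_of_finrank h.k3 (by omega)
  · left
    push Not at hr
    intro S hS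
    have h1 := hfc.toAbSub.self_le' h.k3 (hG.stable S hS)
    have h2 := h.even (cls S)
    have h3 := h.psd (cls S)
    have h4 : eulerForm h.k3 (cls S) (cls S) = 2 := by
      obtain ⟨m, hm⟩ := h2
      have h5 : eulerForm h.k3 (cls S) (cls S) ≠ 0 := by
        intro h6
        exact hr S hS (h.psd'.mem_radical_of_self h6)
      omega
    refine ⟨?_, h4⟩
    have h5 := hfc.toAbSub.self_le h.k3 (hG.stable S hS)
    intro f
    exact forall_zero_of_finrank h.k3 (by omega) f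

/-- A block of rigid objects is a local setting. -/
theorem IsBlock.localSetting (h : EllipticSetting C) (hG : IsBlock σ φ G)
    (hr : ∀ S, G S → Rigid S) : LocalSetting h.k3 (Gen G) (σ.re φ) G := by
  have hfc := finCat_P h σ φ
  have hGs : ∀ S, G S → SimpleIn (σ.sl.P φ) S := fun S hS => hG.stable S hS
  refine { toFinCat := hfc.gen_fin hGs, simple := ?_, rigid := hr, gen := fun X hX => hX,
           conn := ?_ }
  · intro S hS
    exact simple_of_gen hfc.toAbSub hGs (Gen.of hS) (hGs S hS)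
  · intro J hJ hne hcl
    refine Set.Subset.antisymm hJ ?_
    rintro _ ⟨T, hT, rfl⟩
    refine (hG.conn (fun S => G S ∧ cls S ∈ J) (fun S hS => hS.1) ?_ ?_ ?_ T hT).2
    · rintro S S' ⟨e⟩ ⟨hS, hSJ⟩
      exact ⟨hG.iso S S' ⟨e⟩ hS, by rw [← cls_iso e]; exact hSJ⟩
    · obtain ⟨x, hx⟩ := hne
      obtain ⟨S, hS, rfl⟩ := hJ hx
      exact ⟨S, hS, hx⟩
    · rintro S T ⟨hS, hSJ⟩ hT hnT
      have hTJ : cls T ∉ J := fun hc => hnT ⟨hT, hc⟩
      have hne : ¬ Nonempty (S ≅ T) := by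
        rintro ⟨e⟩
        exact hTJ (by rw [← cls_iso e]; exact hSJ)
      obtain ⟨h1, -, -⟩ := hfc.toAbSub.simple_form_le h.k3 (hGs S hS) (hGs T hT) hne
      rw [hcl (cls S) hSJ (cls T) ⟨T, hT, rfl⟩ hTJ] at h1
      exact forall_zero_of_finrank h.k3 (by omega)

end Block

end Pool.Blk
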