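import Mathlib
import Pool.Agent.Work.MP_841263_r3.Block

/-!
# Blocks, second part: finiteness, classes in the radical, affine blocks
-/

open CategoryTheory CategoryTheory.Limits CategoryTheory.Pretriangulated
open scoped ZeroObject

set_option backward.isDefEq.respectTransparency false
set_option backward.defeqAttrib.useBackward true
set_option linter.unusedSectionVars false

namespace Pool.Blk

open Pool.Stab Pool.Tube

universe v u

section Lattice

variable {K : Type*} [AddCommGroup K] {B : K →+ K →+ ℤ}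

lemma toMultiset_sum_eq (c : K →₀ ℕ) : (Finsupp.toMultiset c).sum = comb c := by
  induction c using Finsupp.induction_linear with
  | zero => simp
  | add f g hf hg => rw [map_add, Multiset.sum_add, hf, hg, map_add]
  | single a n => rw [Finsupp.toMultiset_single, Multiset.sum_nsmul, Multiset.sum_singleton,
      comb_single]

/-- Combinations with disjoint supports cannot both be nonzero and radical. -/
lemma not_both {R : Set K} (hR : OffDiag B R) (hconn : Conn B R) {c d : K →₀ ℕ}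
    (hc : ∀ v ∈ c.support, v ∈ R) (hd : ∀ v ∈ d.support, v ∈ R)
    (hcd : ∀ v, v ∈ c.support → v ∉ d.support) (h1 : comb c ∈ radical B) : c = 0 ∨ d = 0 := by
  classical
  by_cases hc0 : c = 0
  · exact Or.inl hc0
  right
  by_contra hd0
  have hfull := full_support hR hconn (s := Finsupp.toMultiset c)
    (fun x hx => hc x ((Finsupp.mem_toMultiset c x).1 hx))
    (fun h0 => hc0 (by
      have := congrArg Multiset.toFinsupp h0
      simpa using this))
    (by rw [toMultiset_sum_eq]; exact mem_radical.1 h1)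
  obtain ⟨v, hv⟩ : d.support.Nonempty := Finsupp.support_nonempty_iff.2 hd0
  exact hcd v ((Finsupp.mem_toMultiset c v).1 (hfull v (hd v hv))) hv

lemma im_comb_pos {R : Set K} {im : K →+ ℝ} (hpos : ∀ v ∈ R, 0 < im v) {c : K →₀ ℕ}
    (hc : ∀ v ∈ c.support, v ∈ R) (hc0 : c ≠ 0) : 0 < im (comb c) := by
  rw [comb_apply, Finsupp.sum, map_sum]
  refine Finset.sum_pos ?_ (Finsupp.support_nonempty_iff.2 hc0)
  intro v hv
  rw [map_nsmul, nsmul_eq_mul]
  have h1 := hpos v (hc v hv)
  have h2 : 0 < c v := Nat.pos_of_ne_zero (Finsupp.mem_support_iff.1 hv)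
  positivity

/-- A connected set of classes with positive values is linearly independent. -/
lemma linearIndependent_of_conn {R : Set K} (hR : OffDiag B R) (hconn : Conn B R)
    (hB : IsPSD B) {im : K →+ ℝ} (hpos : ∀ v ∈ R, 0 < im v) {n : ℕ} {α : Fin n → K}
    (hα : ∀ i, α i ∈ R) (hinj : Function.Injective α) : LinearIndependent ℤ α := by
  classical
  rw [Fintype.linearIndependent_iff]
  intro g hg
  set c : K →₀ ℕ := ∑ i, Finsupp.single (α i) (g i).toNat with hcdef
  set d : K →₀ ℕ := ∑ i, Finsupp.single (α i) (-g i).toNat with hddef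
  have hmem : ∀ (g : Fin n → ℤ) (v : K),
      v ∈ (∑ i, Finsupp.single (α i) (g i).toNat : K →₀ ℕ).support → ∃ i, v = α i ∧ 0 < g i := by
    intro g v hv
    rw [Finsupp.mem_support_iff, Finsupp.finsetSum_apply] at hv
    obtain ⟨i, -, hi⟩ := Finset.exists_ne_zero_of_sum_ne_zero hv
    rw [Finsupp.single_apply] at hi
    by_cases h1 : α i = v
    · rw [if_pos h1] at hi
      exact ⟨i, h1.symm, by omega⟩
    · rw [if_neg h1] at hi
      exact absurd rfl hi
  have hcomb : ∀ g : Fin n → ℤ, comb (∑ i, Finsupp.single (α i) (g i).toNat : K →₀ ℕ) =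
      ∑ i, (g i).toNat • α i := by
    intro g
    rw [map_sum]
    exact Finset.sum_congr rfl (fun i _ => comb_single _ _)
  have hc : ∀ v ∈ c.support, v ∈ R := by
    intro v hv
    obtain ⟨i, rfl, -⟩ := hmem g v hv
    exact hα i
  have hd : ∀ v ∈ d.support, v ∈ R := by
    intro v hv
    obtain ⟨i, rfl, -⟩ := hmem (fun i => -g i) v hv
    exact hα i
  have hcd : ∀ v, v ∈ c.support → v ∉ d.support := by
    intro v hv hv'
    obtain ⟨i, hi, hgi⟩ := hmem g v hv
    obtain ⟨j, hj, hgj⟩ := hmem (fun i => -g i) v hv'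
    have hij : i = j := hinj (hi.symm.trans hj)
    subst hij
    have : 0 < - g i := hgj
    omega
  have hx : comb c - comb d = 0 := by
    rw [hcdef, hddef, hcomb g, hcomb (fun i => -g i), ← hg, ← Finset.sum_sub_distrib]
    refine Finset.sum_congr rfl ?_
    intro i _
    rw [← natCast_zsmul, ← natCast_zsmul, ← sub_smul]
    congr 1
    show ((g i).toNat : ℤ) - ((-g i).toNat : ℤ) = g i
    omega
  have hrad := comb_mem_radical hR hB hc hd hcd (by rw [hx]; simp)
  have h0 : c = 0 ∧ d = 0 := by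
    have hcd' : comb c = comb d := sub_eq_zero.1 hx
    rcases not_both hR hconn hc hd hcd hrad.1 with h1 | h1
    · refine ⟨h1, ?_⟩
      by_contra h2
      have h3 := im_comb_pos hpos hd h2
      rw [← hcd', h1] at h3
      simp at h3
    · refine ⟨?_, h1⟩
      by_contra h2
      have h3 := im_comb_pos hpos hc h2
      rw [hcd', h1] at h3
      simp at h3
  have hzero : ∀ g : Fin n → ℤ, (∑ i, Finsupp.single (α i) (g i).toNat : K →₀ ℕ) = 0 →
      ∀ i, (g i).toNat = 0 := by
    intro g h1 i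
    have h2 := DFunLike.congr_fun h1 (α i)
    rw [Finsupp.finsetSum_apply] at h2
    have h3 := (Finset.sum_eq_zero_iff.1 h2) i (Finset.mem_univ i)
    simpa using h3
  intro i
  have e1 := hzero g h0.1 i
  have e2 := hzero (fun i => -g i) h0.2 i
  have e2' : (-g i).toNat = 0 := e2
  omega

/-- A class in the radical generated by a connected set is a sum of elements up to sign. -/
lemma rad_sign {R : Set K} (hR : OffDiag B R) (hconn : Conn B R) (hB : IsPSD B) {x : K}
    (hx : x ∈ AddSubgroup.closure R) (hrad : x ∈ radical B) :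
    ∃ s : Multiset K, (∀ v ∈ s, v ∈ R) ∧ (∀ y, B s.sum y = 0) ∧ (x = s.sum ∨ x = -s.sum) := by
  obtain ⟨c, d, hc, hd, hcd, rfl⟩ := exists_comb hx
  obtain ⟨hc', hd'⟩ := comb_mem_radical hR hB hc hd hcd (mem_radical.1 hrad _)
  rcases not_both hR hconn hc hd hcd hc' with h0 | h0
  · refine ⟨Finsupp.toMultiset d, fun v hv => hd v ((Finsupp.mem_toMultiset d v).1 hv), ?_,
      Or.inr ?_⟩
    · rw [toMultiset_sum_eq]; exact mem_radical.1 hd'
    · rw [toMultiset_sum_eq, h0]; simp
  · refine ⟨Finsupp.toMultiset c, fun v hv => hc v ((Finsupp.mem_toMultiset c v).1 hv), ?_,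
      Or.inl ?_⟩
    · rw [toMultiset_sum_eq]; exact mem_radical.1 hc'
    · rw [toMultiset_sum_eq, h0]; simp

/-- Two elements of the radical generated by a connected set are dependent. -/
lemma rad_dep {R : Set K} (hR : OffDiag B R) (hconn : Conn B R) (hB : IsPSD B) {x y : K}
    (hx : x ∈ AddSubgroup.closure R) (hxr : x ∈ radical B) (hx0 : x ≠ 0)
    (hy : y ∈ AddSubgroup.closure R) (hyr : y ∈ radical B) (hy0 : y ≠ 0) :
    ∃ N M : ℤ, N ≠ 0 ∧ M ≠ 0 ∧ N • x = M • y := by
  obtain ⟨s, hs, hsr, hsx⟩ := rad_sign hR hconn hB hx hxr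
  obtain ⟨s', hs', hsr', hsy⟩ := rad_sign hR hconn hB hy hyr
  have h1 : s ≠ 0 := by
    rintro rfl
    rcases hsx with h | h
    · exact hx0 (by simpa using h)
    · exact hx0 (by simpa using h)
  have h2 : s' ≠ 0 := by
    rintro rfl
    rcases hsy with h | h
    · exact hy0 (by simpa using h)
    · exact hy0 (by simpa using h)
  obtain ⟨N, M, hN, hM, hNM⟩ := proportional hR hconn hs h1 hsr hs' h2 hsr'
  have hN' : (N : ℤ) ≠ 0 := by exact_mod_cast hN.ne'
  have hM' : (M : ℤ) ≠ 0 := by exact_mod_cast hM.ne'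
  have hNM' : (N : ℤ) • s.sum = (M : ℤ) • s'.sum := by
    rw [natCast_zsmul, natCast_zsmul]; exact hNM
  rcases hsx with rfl | rfl <;> rcases hsy with rfl | rfl
  · exact ⟨N, M, hN', hM', hNM'⟩
  · exact ⟨N, -M, hN', neg_ne_zero.2 hM', by rw [hNM']; simp⟩
  · exact ⟨N, -M, hN', neg_ne_zero.2 hM', by rw [smul_neg, hNM']; simp⟩
  · exact ⟨N, M, hN', hM', by rw [smul_neg, hNM', smul_neg]⟩

end Lattice

variable {C : Type u} [Category.{v} C] [Preadditive C] [HasZeroObject C] [HasShift C ℤ]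
  [∀ n : ℤ, (shiftFunctor C n).Additive] [Pretriangulated C] [IsTriangulated C] [Linear ℂ C]
  [∀ n : ℤ, (shiftFunctor C n).Linear ℂ]

section Block

variable {σ : StabCond C} {φ : ℝ} {G : C → Prop}

/-- The classes of the objects of a block. -/
def clsSet (G : C → Prop) : Set (K0 C) := {x | ∃ S, G S ∧ cls S = x}

lemma IsBlock.offDiag (h : EllipticSetting C) (hG : IsBlock σ φ G) :
    OffDiag (eulerForm h.k3) (clsSet G) := by
  rintro _ ⟨S, hS, rfl⟩ _ ⟨T, hT, rfl⟩ hne
  have h1 := ((finCat_P h σ φ).toAbSub.simple_form_le h.k3 (hG.stable S hS) (hG.stable T hT)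
    (fun ⟨e⟩ => hne (cls_iso e))).1
  rw [h1]
  have : (0 : ℤ) ≤ (Module.finrank ℂ (S ⟶ T⟦(1 : ℤ)⟧) : ℤ) := by positivity
  linarith

lemma IsBlock.connCls (h : EllipticSetting C) (hG : IsBlock σ φ G) :
    Conn (eulerForm h.k3) (clsSet G) := by
  have hfc := finCat_P h σ φ
  intro J hJ hne hcl
  refine Set.Subset.antisymm hJ ?_
  rintro _ ⟨T, hT, rfl⟩
  refine (hG.conn (fun S => G S ∧ cls S ∈ J) (fun S hS => hS.1) ?_ ?_ ?_ T hT).2
  · rintro S S' ⟨e⟩ ⟨hS, hSJ⟩
    exact ⟨hG.iso S S' ⟨e⟩ hS, by rw [← cls_iso e]; exact hSJ⟩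
  · obtain ⟨x, hx⟩ := hne
    obtain ⟨S, hS, rfl⟩ := hJ hx
    exact ⟨S, hS, hx⟩
  · rintro S T ⟨hS, hSJ⟩ hT hnT
    have hTJ : cls T ∉ J := fun hc => hnT ⟨hT, hc⟩
    have hne : ¬ Nonempty (S ≅ T) := by
      rintro ⟨e⟩
      exact hTJ (by rw [← cls_iso e]; exact hSJ)
    obtain ⟨h1, -, -⟩ := hfc.toAbSub.simple_form_le h.k3 (hG.stable S hS) (hG.stable T hT) hne
    rw [hcl (cls S) hSJ (cls T) ⟨T, hT, rfl⟩ hTJ] at h1
    exact forall_zero_of_finrank h.k3 (by omega)

lemma IsBlock.pos (h : EllipticSetting C) (hG : IsBlock σ φ G) :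
    ∀ v ∈ clsSet G, 0 < σ.re φ v := by
  rintro _ ⟨S, hS, rfl⟩
  exact (finCat_P h σ φ).pos S (hG.stable S hS).1 (hG.stable S hS).2.1

/-- A block of rigid objects is finite, its classes are linearly independent. -/
theorem IsBlock.finite (h : EllipticSetting C) (hG : IsBlock σ φ G)
    (hr : ∀ S, G S → Rigid S) : ∃ (n : ℕ) (S : Fin n → C), (∀ i, G (S i)) ∧
      (∀ T, G T → ∃! i, Nonempty (T ≅ S i)) ∧ LinearIndependent ℤ (fun i => cls (S i)) ∧
      n + 1 ≤ Module.finrank ℤ (K0 C) := by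
  classical
  have := h.finite
  have := h.free
  have hfc := finCat_P h σ φ
  have hod := hG.offDiag h
  have hco := hG.connCls h
  have hB := h.psd'
  have hind : ∀ {n : ℕ} {α : Fin n → K0 C}, (∀ i, α i ∈ clsSet G) → Function.Injective α →
      LinearIndependent ℤ α := fun hα hinj =>
    linearIndependent_of_conn hod hco hB (hG.pos h) hα hinj
  have hfin : (clsSet G).Finite := by
    by_contra hinf
    have hinf' : (clsSet G).Infinite := hinf
    set e := hinf'.natEmbedding
    have h1 := hind (n := Module.finrank ℤ (K0 C) + 1) (α := fun i => (e i.1 : K0 C))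
      (fun i => (e i.1).2) (by
        intro i j hij
        have h2 : e i.1 = e j.1 := Subtype.ext hij
        exact Fin.ext (e.injective h2))
    have h2 := h1.fintype_card_le_finrank
    simp at h2
  obtain ⟨n, ⟨f⟩⟩ := Finite.exists_equiv_fin (α := clsSet G) (h := hfin.to_subtype)
  have hch : ∀ i : Fin n, ∃ S, G S ∧ cls S = (f.symm i : K0 C) := fun i => (f.symm i).2
  choose S hS hcS using hch
  have hinj : Function.Injective (fun i => cls (S i)) := by
    intro i j hij
    simp only [hcS] at hij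
    exact f.symm.injective (Subtype.ext hij)
  have hli : LinearIndependent ℤ (fun i => cls (S i)) := hind (fun i => ⟨S i, hS i, rfl⟩) hinj
  refine ⟨n, S, hS, ?_, hli, ?_⟩
  · intro T hT
    refine ⟨f ⟨cls T, T, hT, rfl⟩, ?_, ?_⟩
    · have h1 : cls T = cls (S (f ⟨cls T, T, hT, rfl⟩)) := by
        rw [hcS]
        simp
      exact hfc.toAbSub.iso_of_cls h.k3 (hG.stable T hT) (hG.stable _ (hS _)) (hr T hT) h1
    · rintro j ⟨e⟩
      apply hinj
      show cls (S j) = cls (S (f ⟨cls T, T, hT, rfl⟩))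
      rw [← cls_iso e, hcS]
      simp
  · obtain ⟨b₀, hb₀, b₁, hb₁, -, hb⟩ := exists_basis_of_finrank_two _ h.rank
    have hspan : ∀ y, y ∈ Submodule.span ℤ (Set.range fun i => cls (S i)) →
        y ∈ AddSubgroup.closure (clsSet G) := by
      intro y hy
      induction hy using Submodule.span_induction with
      | mem x hx =>
        obtain ⟨i, rfl⟩ := hx
        exact AddSubgroup.subset_closure ⟨S i, hS i, rfl⟩
      | zero => exact zero_mem _
      | add x y _ _ hx hy => exact add_mem hx hy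
      | smul a x _ hx => exact zsmul_mem hx a
    have hkey : ∀ r : K0 C, ¬ (∀ (c : ℤ) (y : K0 C),
        y ∈ Submodule.span ℤ (Set.range fun i => cls (S i)) → c • r + y = 0 → c = 0) →
        ∃ c : ℤ, c ≠ 0 ∧ c • r ∈ AddSubgroup.closure (clsSet G) := by
      intro r hr
      push Not at hr
      obtain ⟨c, y, hy, hcy, hc⟩ := hr
      refine ⟨c, hc, ?_⟩
      rw [eq_neg_of_add_eq_zero_left hcy]
      exact neg_mem (hspan y hy)
    have hex : ∃ r : K0 C, ∀ (c : ℤ) (y : K0 C),
        y ∈ Submodule.span ℤ (Set.range fun i => cls (S i)) → c • r + y = 0 → c = 0 := by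
      by_contra hcon
      push Not at hcon
      obtain ⟨c₀, hc₀, h₀⟩ := hkey b₀ (by
        intro hall
        obtain ⟨c, y, hy, hcy, hc⟩ := hcon b₀
        exact hc (hall c y hy hcy))
      obtain ⟨c₁, hc₁, h₁⟩ := hkey b₁ (by
        intro hall
        obtain ⟨c, y, hy, hcy, hc⟩ := hcon b₁
        exact hc (hall c y hy hcy))
      have hb00 : c₀ • b₀ ≠ 0 := by
        intro h0
        exact hc₀ (hb c₀ 0 (by rw [h0]; simp)).1
      have hb11 : c₁ • b₁ ≠ 0 := by
        intro h0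
        exact hc₁ (hb 0 c₁ (by rw [h0]; simp)).2
      obtain ⟨N, M, hN, hM, hNM⟩ := rad_dep hod hco hB h₀ (Submodule.smul_mem _ _ hb₀) hb00
        h₁ (Submodule.smul_mem _ _ hb₁) hb11
      have h2 := (hb (N * c₀) (-(M * c₁)) (by
        rw [neg_smul, mul_smul, mul_smul, hNM]
        abel)).1
      rcases mul_eq_zero.1 h2 with h3 | h3
      · exact hN h3
      · exact hc₀ h3
    obtain ⟨r, hr⟩ := hex
    have h3 := (LinearIndependent.finCons' r _ hli hr).fintype_card_le_finrank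
    simpa using h3

/-- The class of an object generated by a block is a nonnegative combination. -/
theorem cls_gen {n : ℕ} {S : Fin n → C} (hcov : ∀ T, G T → ∃ i, Nonempty (T ≅ S i)) {X : C}
    (hX : Gen G X) :
    ∃ m : Fin n → ℕ, cls X = ∑ i, m i • cls (S i) := by
  classical
  induction hX with
  | zero h0 => exact ⟨fun _ => 0, by simp [cls_of_isZero h0]⟩
  | @of X hX =>
    obtain ⟨i, ⟨e⟩⟩ := hcov X hX
    refine ⟨fun j => if j = i then 1 else 0, ?_⟩
    rw [cls_iso e]
    simp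
  | ext hT _ _ h1 h2 =>
    obtain ⟨m1, hm1⟩ := h1
    obtain ⟨m2, hm2⟩ := h2
    refine ⟨fun i => m1 i + m2 i, ?_⟩
    rw [cls_mk hT, hm1, hm2, ← Finset.sum_add_distrib]
    exact Finset.sum_congr rfl (fun i _ => (add_nsmul _ _ _).symm)

/-- An object generated by a block whose class is in the radical contains all stable objects of
the block; the classes of these objects are proportional. -/
theorem IsBlock.rad (h : EllipticSetting C) (hG : IsBlock σ φ G) {n : ℕ} {S : Fin n → C}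
    (hS : ∀ i, G (S i)) (hcov : ∀ T, G T → ∃ i, Nonempty (T ≅ S i))
    (hinj : Function.Injective (fun i => cls (S i))) {X : C} (hX : Gen G X) (hX0 : ¬ IsZero X)
    (hrad : cls X ∈ radical (eulerForm h.k3)) :
    ∃ m : Fin n → ℕ, (∀ i, 1 ≤ m i) ∧ cls X = ∑ i, m i • cls (S i) ∧
      ∀ Y, Gen G Y → ¬ IsZero Y → cls Y ∈ radical (eulerForm h.k3) →
        ∃ N M : ℕ, 0 < N ∧ 0 < M ∧ N • cls Y = M • cls X := by
  classical
  have hfc := finCat_P h σ φ
  have hmul : ∀ Y, Gen G Y → ¬ IsZero Y → ∃ s : Multiset (K0 C), (∀ v ∈ s, v ∈ clsSet G) ∧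
      s ≠ 0 ∧ s.sum = cls Y := by
    intro Y hY hY0
    obtain ⟨L, a1, b1, -⟩ := gen_multiset hY
    refine ⟨L.map cls, ?_, ?_, b1⟩
    · intro v hv
      obtain ⟨H, hH, rfl⟩ := Multiset.mem_map.1 hv
      exact ⟨H, a1 H hH, rfl⟩
    · intro h0
      have h1 := hfc.pos Y (hG.gen_P h hY) hY0
      rw [← b1, h0] at h1
      simp at h1
  obtain ⟨s, hs, hs0, hsX⟩ := hmul X hX hX0
  have hsr : ∀ y, eulerForm h.k3 s.sum y = 0 := by rw [hsX]; exact mem_radical.1 hrad
  have hfull := full_support (hG.offDiag h) (hG.connCls h) hs hs0 hsr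
  refine ⟨fun i => s.count (cls (S i)), ?_, ?_, ?_⟩
  · intro i
    exact Multiset.one_le_count_iff_mem.2 (hfull _ ⟨S i, hS i, rfl⟩)
  · rw [← hsX, Finset.sum_multiset_count]
    have himg : s.toFinset = Finset.univ.image (fun i => cls (S i)) := by
      ext v
      rw [Multiset.mem_toFinset, Finset.mem_image]
      constructor
      · intro hv
        obtain ⟨T, hT, rfl⟩ := hs v hv
        obtain ⟨i, ⟨e⟩⟩ := hcov T hT
        exact ⟨i, Finset.mem_univ _, (cls_iso e).symm⟩
      · rintro ⟨i, -, rfl⟩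
        exact hfull _ ⟨S i, hS i, rfl⟩
    rw [himg, Finset.sum_image (fun i _ j _ hij => hinj hij)]
  · intro Y hY hY0 hYr
    obtain ⟨s', hs', hs0', hsY⟩ := hmul Y hY hY0
    obtain ⟨N, M, hN, hM, hNM⟩ := proportional (hG.offDiag h) (hG.connCls h) hs' hs0'
      (by rw [hsY]; exact mem_radical.1 hYr) hs hs0 hsr
    exact ⟨N, M, hN, hM, by rw [← hsX, ← hsY]; exact hNM⟩

/-- A semistable object is generated by finitely many blocks. -/
theorem finite_blocks (h : EllipticSetting C) (σ : StabCond C) (φ : ℝ) {X : C}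
    (hX : σ.sl.P φ X) : ∃ Bs : List (C → Prop), (∀ G ∈ Bs, IsBlock σ φ G) ∧
      Gen (fun S => ∃ G ∈ Bs, G S) X := by
  have hgen := (finCat_P h σ φ).gen_simple X hX
  induction hgen with
  | zero h0 => exact ⟨[], by simp, Gen.zero h0⟩
  | @of S hS =>
    obtain ⟨G, hG, hGS⟩ := exists_block h σ φ (S := S) hS
    exact ⟨[G], by simpa using hG, Gen.of ⟨G, by simp, hGS⟩⟩
  | @ext X Y Z f g w hT hX' hZ' h1 h2 =>
    have hPX : σ.sl.P φ X := (finCat_P h σ φ).toAbSub.gen_mem (fun S hS => hS) hX'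
    have hPZ : σ.sl.P φ Z := (finCat_P h σ φ).toAbSub.gen_mem (fun S hS => hS) hZ'
    obtain ⟨L1, a1, b1⟩ := h1 hPX
    obtain ⟨L2, a2, b2⟩ := h2 hPZ
    refine ⟨L1 ++ L2, ?_, Gen.ext hT (b1.mono ?_) (b2.mono ?_)⟩
    · intro G hG
      rcases List.mem_append.1 hG with h3 | h3
      · exact a1 G h3
      · exact a2 G h3
    · rintro S ⟨G, hG, hGS⟩
      exact ⟨G, List.mem_append.2 (Or.inl hG), hGS⟩
    · rintro S ⟨G, hG, hGS⟩
      exact ⟨G, List.mem_append.2 (Or.inr hG), hGS⟩

/-- A nonzero semistable object has a nonzero part in some block. -/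
theorem exists_part (h : EllipticSetting C) (σ : StabCond C) (φ : ℝ) {X : C}
    (hX : σ.sl.P φ X) (hX0 : ¬ IsZero X) : ∃ (G : C → Prop) (X₁ X₂ : C), IsBlock σ φ G ∧
      Gen G X₁ ∧ Gen (fun T => σ.Stable φ T ∧ ¬ G T) X₂ ∧ Nonempty (X ≅ X₁ ⊞ X₂) ∧
      ¬ IsZero X₁ := by
  have hfc := finCat_P h σ φ
  obtain ⟨K, S, k, s, hks, hS⟩ := hfc.exists_simple_quot X hX hX0
  obtain ⟨G, hG, hGS⟩ := exists_block h σ φ (S := S) hS
  obtain ⟨X₁, X₂, h1, h2, ⟨e⟩⟩ := hG.split h hX
  refine ⟨G, X₁, X₂, hG, h1, h2, ⟨e⟩, ?_⟩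
  intro h0
  have hs0 : s ≠ 0 := by
    intro h3
    exact hS.2.1 (isZero_of_SES_right hfc.toAbSub hks h3)
  apply hs0
  rw [← cancel_epi e.inv, comp_zero]
  apply biprod.hom_ext'
  · rw [comp_zero]
    exact h0.eq_of_src _ _
  · rw [comp_zero]
    have h5 := (hG.compl_orth (Gen.of hGS) h2).2 0
      ((biprod.inr ≫ e.inv ≫ s) ≫ ((shiftFunctorZero C ℤ).app S).inv)
    rw [← cancel_mono ((shiftFunctorZero C ℤ).app S).inv, h5, zero_comp]

lemma P_shift_int (σ : StabCond C) {ψ : ℝ} {X : C} (hX : σ.sl.P ψ X) (n : ℤ) :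
    σ.sl.P (ψ + n) (X⟦n⟧) := by
  induction n using Int.induction_on with
  | zero =>
    refine σ.sl.iso_mem _ ((shiftFunctorZero C ℤ).app X).symm ?_
    simpa using hX
  | succ i ih =>
    have h1 := (σ.sl.shift_mem _ _).1 ih
    have h2 : ψ + ((i : ℤ) : ℝ) + 1 = ψ + (((i : ℤ) + 1 : ℤ) : ℝ) := by push_cast; ring
    rw [h2] at h1
    exact σ.sl.iso_mem _ ((shiftFunctorAdd C (i : ℤ) 1).app X).symm h1
  | pred i ih =>
    have h1 := σ.sl.P_shift_neg_one _ _ ih
    have h2 : ψ + ((-(i : ℤ) : ℤ) : ℝ) - 1 = ψ + ((-(i : ℤ) - 1 : ℤ) : ℝ) := by push_cast; ring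
    rw [h2] at h1
    exact σ.sl.iso_mem _ ((shiftFunctorAdd' C (-(i : ℤ)) (-1) (-(i : ℤ) - 1) (by ring)).app X).symm
      h1

/-- Every root on the ray of phase `φ` is the class of a spherical semistable object. -/
theorem exists_root (h : EllipticSetting C) (σ : StabCond C) (φ : ℝ) {α : K0 C}
    (hα : eulerForm h.k3 α α = 2) (him : σ.im φ α = 0) (hre : 0 < σ.re φ α) :
    ∃ X : C, σ.sl.P φ X ∧ Spherical X ∧ cls X = α := by
  have := h.finite
  have := h.free
  obtain ⟨ψ, X, hX, hs, rfl⟩ := h.root_semistable σ hα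
  have h0 : ¬ IsZero X := by
    intro h0
    rw [cls_of_isZero h0, map_zero] at hre
    exact lt_irrefl _ hre
  obtain ⟨hpos, h1, h2⟩ := σ.polar φ hX h0
  rw [him] at h2
  rw [h1] at hre
  have h3 : Real.sin (Real.pi * (ψ - φ)) = 0 := by
    rcases mul_eq_zero.1 h2.symm with h3 | h3
    · exact absurd h3 hpos.ne'
    · exact h3
  obtain ⟨n, hn⟩ := Real.sin_eq_zero_iff.1 h3
  have hn' : ψ - φ = n := by
    have hpi := Real.pi_pos
    have : (ψ - φ - n) * Real.pi = 0 := by linear_combination -hn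
    rcases mul_eq_zero.1 this with h4 | h4
    · linarith
    · exact absurd h4 hpi.ne'
  have hev : Even n := by
    by_contra hodd
    rw [Int.not_even_iff_odd] at hodd
    have h5 : Real.cos (Real.pi * (ψ - φ)) = -1 := by
      rw [← hn, Real.cos_int_mul_pi, hodd.neg_one_zpow]
    rw [h5] at hre
    linarith
  refine ⟨X⟦-n⟧, ?_, hs.shift _, ?_⟩
  · have h6 := P_shift_int σ hX (-n)
    have h7 : ψ + ((-n : ℤ) : ℝ) = φ := by push_cast; linarith
    rwa [h7] at h6
  · rw [cls_shift, Int.negOnePow_even _ hev.neg]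
    simp

lemma orth_zero {X Y : C} (h : Orth X Y) (f : X ⟶ Y) : f = 0 := by
  have h1 := h 0 (f ≫ ((shiftFunctorZero C ℤ).app Y).inv)
  rw [← cancel_mono ((shiftFunctorZero C ℤ).app Y).inv, h1, zero_comp]

lemma im_P (σ : StabCond C) {φ : ℝ} {X : C} (hX : σ.sl.P φ X) : σ.im φ (cls X) = 0 := by
  by_cases h0 : IsZero X
  · rw [cls_of_isZero h0, map_zero]
  · rw [(σ.polar φ hX h0).2.2]
    simp

/-- The parts of an object in a block and outside the block are orthogonal in `K0`. -/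
lemma IsBlock.form_zero (h : EllipticSetting C) (hG : IsBlock σ φ G) {X Y : C} (hX : Gen G X)
    (hY : Gen (fun T => σ.Stable φ T ∧ ¬ G T) Y) :
    eulerForm h.k3 (cls X) (cls Y) = 0 := by
  obtain ⟨h1, h2⟩ := hG.compl_orth hX hY
  have hfc := finCat_P h σ φ
  rw [hfc.toAbSub.eulerChar h.k3 (hG.gen_P h hX) (hfc.toAbSub.gen_mem (fun S hS => hS.1) hY),
    finrank_of_forall_zero (orth_zero h1), finrank_of_forall_zero (orth_zero h2),
    finrank_of_forall_zero (h1 1)]
  simp

/-- Every root on the ray of phase `φ` which is orthogonal to the other blocks is the class of a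
spherical object of the block. -/
theorem IsBlock.exists_root (h : EllipticSetting C) (hG : IsBlock σ φ G) {α : K0 C}
    (hα : eulerForm h.k3 α α = 2) (him : σ.im φ α = 0) (hre : 0 < σ.re φ α)
    (horth : ∀ T, σ.Stable φ T → ¬ G T → eulerForm h.k3 α (cls T) = 0) :
    ∃ X : C, Gen G X ∧ Spherical X ∧ cls X = α := by
  have hfc := finCat_P h σ φ
  obtain ⟨X, hX, hs, hc⟩ := Pool.Blk.exists_root h σ φ hα him hre
  obtain ⟨X₁, X₂, h1, h2, ⟨e⟩⟩ := hG.split h hX
  have hP2 : σ.sl.P φ X₂ := hfc.toAbSub.gen_mem (fun S hS => hS.1) h2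
  have h3 : eulerForm h.k3 α (cls X₂) = 0 := by
    have h4 : ∀ Y, Gen (fun T => σ.Stable φ T ∧ ¬ G T) Y → eulerForm h.k3 α (cls Y) = 0 := by
      intro Y hY
      induction hY with
      | zero h0 => rw [cls_of_isZero h0, map_zero]
      | of hT => exact horth _ hT.1 hT.2
      | ext hT _ _ a1 a2 => rw [cls_mk hT, map_add, a1, a2, add_zero]
    exact h4 X₂ h2
  have hcls : α = cls X₁ + cls X₂ := by
    rw [← hc, cls_iso e]
    exact cls_mk (binaryBiproductTriangle_distinguished X₁ X₂)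
  have h5 : eulerForm h.k3 (cls X₂) (cls X₂) = 0 := by
    rw [hcls, map_add, AddMonoidHom.add_apply, hG.form_zero h h1 h2, zero_add] at h3
    exact h3
  have hr : Rigid X := fun f => hs.2 1 (by norm_num) (by norm_num) f
  have hr2 : Rigid X₂ := by
    refine (Rigid.of_triangle h.k3 (binaryBiproductTriangle_distinguished X₁ X₂) ?_
      (hr.iso e)).2
    exact orth_zero (hG.compl_orth h1 h2).1
  have h6 : IsZero X₂ := by
    have h7 := hr2.form_self hfc.toAbSub h.k3 hP2
    rw [h5] at h7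
    have h8 : Module.finrank ℂ (X₂ ⟶ X₂) = 0 := by omega
    rw [IsZero.iff_id_eq_zero]
    have h9 := h.k3.homFinite X₂ X₂
    have h10 : Subsingleton (X₂ ⟶ X₂) := Module.finrank_zero_iff.1 h8
    exact Subsingleton.elim _ _
  have h11 : IsIso (biprod.inl : X₁ ⟶ X₁ ⊞ X₂) := (Biprod.isIso_inl_iff_isZero X₁ X₂).2 h6
  have e' : X ≅ X₁ := e ≪≫ (asIso (biprod.inl : X₁ ⟶ X₁ ⊞ X₂)).symm
  exact ⟨X, h1.iso e'.symm, hs, hc⟩

/-- The roots `cls S + r`, `-cls S + r` on the ray of phase `φ`, for `S` in the block and `r` in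
the radical, are classes of spherical objects of the block. -/
theorem IsBlock.exists_root_add (h : EllipticSetting C) (hG : IsBlock σ φ G) {X : C}
    (hX : Gen G X) (hX2 : eulerForm h.k3 (cls X) (cls X) = 2) {r : K0 C}
    (hr : r ∈ radical (eulerForm h.k3)) (hrim : σ.im φ r = 0) (ε : ℤ) (hε : ε = 1 ∨ ε = -1)
    (hre : 0 < σ.re φ (ε • cls X + r)) :
    ∃ Y : C, Gen G Y ∧ Spherical Y ∧ cls Y = ε • cls X + r := by
  have hr' := mem_radical.1 hr
  have hr'' : ∀ y, eulerForm h.k3 y r = 0 := fun y => by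
    rw [h.psd'.symm]; exact hr' y
  have hPX := hG.gen_P h hX
  refine hG.exists_root h ?_ ?_ hre ?_
  · simp only [map_add, AddMonoidHom.add_apply, hr', hr'', map_zsmul, AddMonoidHom.coe_smul,
      Pi.smul_apply, hX2]
    rcases hε with rfl | rfl <;> norm_num
  · rw [map_add, hrim, map_zsmul, im_P σ hPX]
    simp
  · intro T hT hTG
    simp only [map_add, AddMonoidHom.add_apply, hr', map_zsmul, AddMonoidHom.coe_smul,
      Pi.smul_apply, hG.form_zero h hX (Gen.of ⟨hT, hTG⟩)]
    simp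

/-- In a rational direction every block of rigid objects is affine. -/
theorem IsBlock.affine (h : EllipticSetting C) (hG : IsBlock σ φ G)
    (hr : ∀ S, G S → Rigid S) {r : K0 C} (hrad : r ∈ radical (eulerForm h.k3)) (hr0 : r ≠ 0)
    (him : σ.im φ r = 0) : ∃ (X : C) (k : ℤ), Gen G X ∧ ¬ IsZero X ∧ k ≠ 0 ∧ cls X = k • r := by
  have hfin := h.finite
  have hfree := h.free
  have hfc := finCat_P h σ φ
  obtain ⟨S, hS⟩ := hG.ne
  have hSs := hG.stable S hS
  have hSpos := hfc.pos S hSs.1 hSs.2.1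
  have hre : σ.re φ r ≠ 0 := by
    intro h0
    apply h.Z_ne_zero σ (x := r) (by rw [mem_radical.1 hrad]; norm_num) hr0
    have h1 : σ.Z r * Complex.exp (-(Real.pi * φ * Complex.I)) = 0 :=
      Complex.ext h0 him
    rcases mul_eq_zero.1 h1 with h2 | h2
    · exact h2
    · exact absurd h2 (Complex.exp_ne_zero _)
  have hk : ∃ k : ℤ, σ.re φ (cls S) < k * σ.re φ r := by
    rcases lt_or_gt_of_ne hre with h1 | h1
    · obtain ⟨n, hn⟩ := exists_nat_gt (σ.re φ (cls S) / (-σ.re φ r))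
      refine ⟨-(n : ℤ), ?_⟩
      rw [div_lt_iff₀ (by linarith)] at hn
      push_cast
      linarith
    · obtain ⟨n, hn⟩ := exists_nat_gt (σ.re φ (cls S) / (σ.re φ r))
      refine ⟨(n : ℤ), ?_⟩
      rw [div_lt_iff₀ h1] at hn
      push_cast
      linarith
  obtain ⟨k, hk⟩ := hk
  have hS2 : eulerForm h.k3 (cls S) (cls S) = 2 :=
    hfc.toAbSub.norm_of_rigid h.k3 hSs (hr S hS)
  obtain ⟨Y, hY, -, hYc⟩ := hG.exists_root_add h (Gen.of hS) hS2
    (r := k • r) (Submodule.smul_mem _ _ hrad) (by rw [map_zsmul, him]; simp) (-1) (Or.inr rfl)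
    (by
      rw [map_add, map_zsmul, map_zsmul]
      simp only [neg_smul, one_smul, zsmul_eq_mul]
      linarith)
  refine ⟨S ⊞ Y, k, Gen.ext (binaryBiproductTriangle_distinguished S Y) (Gen.of hS) hY, ?_, ?_,
    ?_⟩
  · intro h0
    exact hSs.2.1 (IsZero.of_mono (biprod.inl : S ⟶ S ⊞ Y) h0)
  · rintro rfl
    simp at hk
    linarith
  · rw [show cls (S ⊞ Y) = cls S + cls Y from
      cls_mk (binaryBiproductTriangle_distinguished S Y), hYc]
    simp

end Block

end Pool.Blk
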